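import Pool.Agent.TH872.Sq.W14

set_option autoImplicit false

/-! Prime values of `x ^ 2 + x + A` for arguments `x` in an arbitrary set, for almost all `A`. -/

namespace Pool.Agent.E8helper86.CF
open Finset
open Pool.Agent.TH872.Sq (qv dg ld fx th SD wD dig_wD sum_wD tuple_any almost th_nonneg th_le dg_ne)
open Pool.Agent.H373R2.T7 (pz mem_pz lamz lamzI Vz Vz_pos)

open Classical in
/-- the number of the `x ∈ S` in `M` for which all the `x ^ 2 + x + c j` are prime -/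
noncomputable def cnt {r : ℕ} (S : Finset ℕ) (M : Set ℕ) (c : Fin r → ℕ) : ℕ :=
  (S.filter (fun x => x ∈ M ∧ ∀ j, (x ^ 2 + x + c j).Prime)).card

open Classical in
/-- the number of the `x ∈ S` in `M` for which no prime `p ≤ z` divides one of the `x ^ 2 + x + c j` -/
noncomputable def rgh {r : ℕ} (z : ℕ) (S : Finset ℕ) (M : Set ℕ) (c : Fin r → ℕ) : ℕ :=
  (S.filter (fun x => x ∈ M ∧ ∀ j, ∀ p : ℕ, p.Prime → p ≤ z → ¬ p ∣ x ^ 2 + x + c j)).card

lemma qv_eq (x A : ℕ) : qv 1 1 x + 1 * (A : ℤ) = ((x ^ 2 + x + A : ℕ) : ℤ) := by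
  unfold qv; push_cast; ring

lemma fx_eq (x A : ℕ) (hA : 1 ≤ A) : fx th (qv 1 1 x + 1 * (A : ℤ)) = th (x ^ 2 + x + A) := by
  rw [qv_eq]
  unfold fx
  rw [if_pos (by exact_mod_cast (by omega : 1 ≤ x ^ 2 + x + A)), Int.toNat_natCast]

lemma lz_eq (z x A : ℕ) (hA : 1 ≤ A) : lamzI z (qv 1 1 x + 1 * (A : ℤ)) = lamz z (x ^ 2 + x + A) := by
  rw [qv_eq]
  unfold lamzI
  rw [if_pos (by exact_mod_cast (by omega : 1 ≤ x ^ 2 + x + A)), Int.toNat_natCast]

open Classical in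
lemma model {r : ℕ} (z : ℕ) (S : Finset ℕ) (M : Set ℕ) (c : Fin r → ℕ) :
    ∑ x ∈ S, (if x ∈ M then (1 : ℝ) else 0) * ∏ j, lamz z (x ^ 2 + x + c j) = rgh z S M c / Vz z ^ r := by
  unfold rgh
  rw [card_filter]
  push_cast
  rw [sum_div]
  refine sum_congr rfl fun x _ => ?_
  by_cases hM : x ∈ M
  · by_cases h : ∀ j, ∀ p : ℕ, p.Prime → p ≤ z → ¬ p ∣ x ^ 2 + x + c j
    · rw [if_pos hM, if_pos ⟨hM, h⟩, one_mul, one_div, ← inv_pow]
      rw [prod_congr rfl (g := fun _ => (Vz z)⁻¹), prod_const, card_univ, Fintype.card_fin]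
      intro j _
      unfold lamz
      rw [if_pos]
      intro p hp
      rw [mem_pz] at hp
      exact h j p hp.2 hp.1
    · rw [if_pos hM, if_neg (fun hh => h hh.2)]
      push Not at h
      obtain ⟨j, p, hp, hpz, hd⟩ := h
      rw [zero_div, prod_eq_zero (mem_univ j), mul_zero]
      unfold lamz
      rw [if_neg]
      intro hh
      exact hh p (mem_pz.2 ⟨hpz, hp⟩) hd
  · rw [if_neg hM, if_neg (fun hh => hM hh.1), zero_mul, zero_div]

open Classical in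
lemma weights {r : ℕ} (S : Finset ℕ) (M : Set ℕ) (c : Fin r → ℕ) (L a : ℝ) (ha : 0 ≤ L - a)
    (h : ∀ x ∈ S, ∀ j, |Real.log ((x ^ 2 + x + c j : ℕ) : ℝ) - L| ≤ a) :
    (L - a) ^ r * cnt S M c ≤ ∑ x ∈ S, (if x ∈ M then (1 : ℝ) else 0) * ∏ j, th (x ^ 2 + x + c j) ∧
    ∑ x ∈ S, (if x ∈ M then (1 : ℝ) else 0) * ∏ j, th (x ^ 2 + x + c j) ≤ (L + a) ^ r * cnt S M c := by
  have h1 : ∑ x ∈ S, (if x ∈ M then (1 : ℝ) else 0) * ∏ j, th (x ^ 2 + x + c j) =
      ∑ x ∈ S.filter (fun x => x ∈ M ∧ ∀ j, (x ^ 2 + x + c j).Prime), ∏ j, Real.log ((x ^ 2 + x + c j : ℕ) : ℝ) := by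
    rw [sum_filter]
    refine sum_congr rfl fun x _ => ?_
    by_cases hM : x ∈ M
    · by_cases hp : ∀ j, (x ^ 2 + x + c j).Prime
      · rw [if_pos hM, if_pos ⟨hM, hp⟩, one_mul]
        refine prod_congr rfl fun j _ => ?_
        unfold th
        rw [if_pos (hp j)]
      · rw [if_pos hM, if_neg (fun hh => hp hh.2)]
        push Not at hp
        obtain ⟨j, hj⟩ := hp
        rw [prod_eq_zero (mem_univ j), mul_zero]
        unfold th
        rw [if_neg hj]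
    · rw [if_neg hM, if_neg (fun hh => hM hh.1), zero_mul]
  rw [h1]
  unfold cnt
  have hc : ∀ t : ℝ, t ^ r = ∏ _j : Fin r, t := by
    intro t
    rw [prod_const, card_univ, Fintype.card_fin]
  constructor
  · rw [mul_comm, ← nsmul_eq_mul]
    apply card_nsmul_le_sum
    intro x hx
    rw [mem_filter] at hx
    rw [hc]
    apply prod_le_prod (fun _ _ => ha)
    intro j _
    have := h x hx.1 j
    rw [abs_le] at this
    linarith [this.1]
  · rw [mul_comm, ← nsmul_eq_mul]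
    apply sum_le_card_nsmul
    intro x hx
    rw [mem_filter] at hx
    rw [hc]
    apply prod_le_prod
    · intro j _
      exact Real.log_natCast_nonneg _
    · intro j _
      have := h x hx.1 j
      rw [abs_le] at this
      linarith [this.2]

/-- from weighted sums to numbers -/
lemma conv (r : ℕ) (n W R s L a ε : ℝ) (hn : 0 ≤ n) (hR : 0 ≤ R) (hs : 0 ≤ s) (ha : 0 ≤ a) (hε : 0 < ε)
    (h1 : 1 ≤ L - a) (h2 : ((r : ℝ) + 1) * a * (1 + ε) ≤ ε * L)
    (h3 : (L - a) ^ r * n ≤ W) (h4 : W ≤ (L + a) ^ r * n) (h5 : |W - R| ≤ s) :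
    |n - R / L ^ r| ≤ ε * (R / L ^ r) + s := by
  have hL : 0 < L := by linarith
  have hLr : 0 < L ^ r := pow_pos hL r
  have hA : 1 ≤ (L - a) ^ r := one_le_pow₀ h1
  have hB : 1 ≤ (L + a) ^ r := one_le_pow₀ (by linarith)
  have hr : (0 : ℝ) ≤ r := Nat.cast_nonneg r
  have hra : (r : ℝ) * a * (1 + ε) ≤ ε * L := by nlinarith [mul_nonneg ha (by linarith : (0 : ℝ) ≤ 1 + ε)]
  -- first comparison
  have c1 : L ^ r ≤ (1 + ε) * (L - a) ^ r := by
    have e1 : 1 + (r : ℝ) * (-(a / L)) ≤ (1 + -(a / L)) ^ r := by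
      apply one_add_mul_le_pow
      have : a / L ≤ 1 := by rw [div_le_one hL]; linarith
      linarith
    have e2 : (L - a) ^ r = L ^ r * (1 + -(a / L)) ^ r := by
      rw [← mul_pow]
      congr 1
      field_simp
      ring
    have e3 : (r : ℝ) * (a / L) ≤ ε / (1 + ε) := by
      rw [← mul_div_assoc, div_le_div_iff₀ hL (by linarith)]
      linarith
    have e4 : 1 ≤ (1 + ε) * (1 + -(a / L)) ^ r := by
      have e5 : 1 - ε / (1 + ε) ≤ (1 + -(a / L)) ^ r := by linarith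
      have e6 : (1 + ε) * (1 - ε / (1 + ε)) = 1 := by field_simp; ring
      calc (1 : ℝ) = (1 + ε) * (1 - ε / (1 + ε)) := e6.symm
        _ ≤ _ := mul_le_mul_of_nonneg_left e5 (by linarith)
    rw [e2]
    calc L ^ r = L ^ r * 1 := (mul_one _).symm
      _ ≤ L ^ r * ((1 + ε) * (1 + -(a / L)) ^ r) := mul_le_mul_of_nonneg_left e4 hLr.le
      _ = _ := by ring
  have c2 : (1 - ε) * (L + a) ^ r ≤ L ^ r := by
    have hLa : 0 < L + a := by linarith
    have e1 : 1 + (r : ℝ) * (-(a / (L + a))) ≤ (1 + -(a / (L + a))) ^ r := by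
      apply one_add_mul_le_pow
      have : a / (L + a) ≤ 1 := by rw [div_le_one hLa]; linarith
      linarith
    have e2 : L ^ r = (L + a) ^ r * (1 + -(a / (L + a))) ^ r := by
      rw [← mul_pow]
      congr 1
      field_simp
      ring
    have e3 : (r : ℝ) * (a / (L + a)) ≤ ε := by
      rw [← mul_div_assoc, div_le_iff₀ hLa]
      have : 0 ≤ (r : ℝ) * a * ε := by positivity
      nlinarith [mul_nonneg hε.le ha]
    rw [e2, mul_comm (1 - ε)]
    apply mul_le_mul_of_nonneg_left _ (by positivity)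
    linarith
  rw [abs_le] at h5 ⊢
  have hRL : R / L ^ r * L ^ r = R := div_mul_cancel₀ R hLr.ne'
  have hRL0 : 0 ≤ R / L ^ r := by positivity
  obtain ⟨q, hq⟩ : ∃ q, q = R / L ^ r := ⟨_, rfl⟩
  rw [← hq] at hRL hRL0 ⊢
  constructor
  · -- lower bound
    have e1 : q * L ^ r - s ≤ (L + a) ^ r * n := by linarith [h5.1]
    have e2 : (1 - ε) * q * (L + a) ^ r ≤ q * L ^ r := by
      calc (1 - ε) * q * (L + a) ^ r = q * ((1 - ε) * (L + a) ^ r) := by ring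
        _ ≤ _ := mul_le_mul_of_nonneg_left c2 hRL0
    have e3 : s ≤ s * (L + a) ^ r := le_mul_of_one_le_right hs hB
    have e4 : (1 - ε) * q * (L + a) ^ r ≤ (n + s) * (L + a) ^ r := by nlinarith
    have e5 := le_of_mul_le_mul_right e4 (by linarith : (0 : ℝ) < (L + a) ^ r)
    linarith
  · have e1 : (L - a) ^ r * n ≤ q * L ^ r + s := by linarith [h5.2]
    have e2 : q * L ^ r ≤ (1 + ε) * q * (L - a) ^ r := by
      calc q * L ^ r ≤ q * ((1 + ε) * (L - a) ^ r) := mul_le_mul_of_nonneg_left c1 hRL0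
        _ = _ := by ring
    have e3 : s ≤ s * (L - a) ^ r := le_mul_of_one_le_right hs hA
    have e4 : n * (L - a) ^ r ≤ ((1 + ε) * q + s) * (L - a) ^ r := by nlinarith
    have e5 := le_of_mul_le_mul_right e4 (by linarith : (0 : ℝ) < (L - a) ^ r)
    linarith

/-- the tuples with a small coordinate -/
lemma small_count (r X : ℕ) (T : ℕ) (hT : 1 ≤ T) :
    (((Fintype.piFinset (fun _ : Fin r => Icc 1 X)).filter (fun c => ∃ j, c j * T ≤ X)).card : ℝ) ≤ r * ((X : ℝ) ^ r / T) := by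
  classical
  have hT0 : (0 : ℝ) < T := by exact_mod_cast hT
  have h1 : (Fintype.piFinset (fun _ : Fin r => Icc 1 X)).filter (fun c => ∃ j, c j * T ≤ X) ⊆
      univ.biUnion (fun j : Fin r => Fintype.piFinset (fun i : Fin r => if i = j then Icc 1 (X / T) else Icc 1 X)) := by
    intro c hc
    rw [mem_filter, Fintype.mem_piFinset] at hc
    obtain ⟨hc1, j, hj⟩ := hc
    rw [mem_biUnion]
    refine ⟨j, mem_univ j, ?_⟩
    rw [Fintype.mem_piFinset]
    intro i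
    split_ifs with hi
    · subst hi
      have := hc1 i
      rw [mem_Icc] at this ⊢
      exact ⟨this.1, (Nat.le_div_iff_mul_le (by omega)).2 hj⟩
    · exact hc1 i
  have h2 : ∀ j : Fin r, ((Fintype.piFinset (fun i : Fin r => if i = j then Icc 1 (X / T) else Icc 1 X)).card : ℝ) ≤ (X : ℝ) ^ r / T := by
    intro j
    rw [Fintype.card_piFinset, Nat.cast_prod, ← mul_prod_erase univ _ (mem_univ j)]
    have e1 : ∀ i ∈ univ.erase j, (((if i = j then Icc 1 (X / T) else Icc 1 X).card : ℕ) : ℝ) = X := by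
      intro i hi
      rw [if_neg (mem_erase.1 hi).1, Nat.card_Icc]
      push_cast
      simp
    rw [prod_congr rfl e1, prod_const, card_erase_of_mem (mem_univ j), card_univ, Fintype.card_fin, if_pos rfl, Nat.card_Icc]
    have e2 : ((X / T + 1 - 1 : ℕ) : ℝ) ≤ (X : ℝ) / T := by
      rw [Nat.add_sub_cancel]
      exact Nat.cast_div_le
    have hr : 0 < r := j.pos
    calc ((X / T + 1 - 1 : ℕ) : ℝ) * (X : ℝ) ^ (r - 1) ≤ (X : ℝ) / T * (X : ℝ) ^ (r - 1) :=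
          mul_le_mul_of_nonneg_right e2 (by positivity)
      _ = (X : ℝ) ^ r / T := by
        obtain ⟨m, rfl⟩ : ∃ m, r = m + 1 := ⟨r - 1, by omega⟩
        rw [Nat.add_sub_cancel, pow_succ]
        ring
  calc (((Fintype.piFinset (fun _ : Fin r => Icc 1 X)).filter (fun c => ∃ j, c j * T ≤ X)).card : ℝ) ≤
        ((univ.biUnion (fun j : Fin r => Fintype.piFinset (fun i : Fin r => if i = j then Icc 1 (X / T) else Icc 1 X))).card : ℝ) := by
        exact_mod_cast card_le_card h1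
    _ ≤ ∑ j : Fin r, ((Fintype.piFinset (fun i : Fin r => if i = j then Icc 1 (X / T) else Icc 1 X)).card : ℝ) := by
        exact_mod_cast card_biUnion_le
    _ ≤ ∑ _j : Fin r, (X : ℝ) ^ r / T := sum_le_sum fun j _ => h2 j
    _ = _ := by rw [sum_const, card_univ, Fintype.card_fin, nsmul_eq_mul]

/-- the logarithms of the values -/
lemma log_val (b k F₀ U x c X : ℕ) (hb : 2 ≤ b) (hk : 1 ≤ k) (hx : x < b ^ k) (hX1 : b ^ (2 * k) ≤ X) (hX2 : X ≤ F₀ * b ^ (2 * k))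
    (hc : X < c * k ^ U) (hcX : c ≤ X) (L C : ℝ) (hL : |L - 2 * k * Real.log b| ≤ C) :
    |Real.log ((x ^ 2 + x + c : ℕ) : ℝ) - L| ≤ U * Real.log k + Real.log (F₀ + 1) + C := by
  have hb0 : (0 : ℝ) < b := by exact_mod_cast (by omega : 0 < b)
  have hk0 : (0 : ℝ) < k := by exact_mod_cast hk
  have hY : (0 : ℝ) < (b : ℝ) ^ (2 * k) := by positivity
  have hlY : Real.log ((b : ℝ) ^ (2 * k)) = 2 * k * Real.log b := by
    rw [Real.log_pow]; push_cast; ring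
  have hlk : 0 ≤ Real.log k := Real.log_natCast_nonneg k
  have hlF : 0 ≤ Real.log ((F₀ : ℝ) + 1) := by
    apply Real.log_nonneg
    have : (0 : ℝ) ≤ F₀ := Nat.cast_nonneg _
    linarith
  have hU : (0 : ℝ) ≤ U := Nat.cast_nonneg _
  have hc0 : 0 < c := by
    rcases Nat.eq_zero_or_pos c with h | h
    · rw [h, zero_mul] at hc; omega
    · exact h
  -- lower bound
  have h1 : (b : ℝ) ^ (2 * k) ≤ ((x ^ 2 + x + c : ℕ) : ℝ) * (k : ℝ) ^ U := by
    have e1 : b ^ (2 * k) ≤ (x ^ 2 + x + c) * k ^ U :=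
      hX1.trans (hc.le.trans (Nat.mul_le_mul_right _ (Nat.le_add_left _ _)))
    exact_mod_cast e1
  have h2 : ((x ^ 2 + x + c : ℕ) : ℝ) ≤ ((F₀ : ℝ) + 1) * (b : ℝ) ^ (2 * k) := by
    have e0 : x + 1 ≤ b ^ k := hx
    have e1 : x ^ 2 + x ≤ b ^ (2 * k) := by
      calc x ^ 2 + x ≤ (x + 1) ^ 2 := by nlinarith
        _ ≤ (b ^ k) ^ 2 := Nat.pow_le_pow_left e0 2
        _ = b ^ (2 * k) := by rw [← pow_mul, mul_comm]
    have e2 : x ^ 2 + x + c ≤ (F₀ + 1) * b ^ (2 * k) := by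
      calc x ^ 2 + x + c ≤ b ^ (2 * k) + F₀ * b ^ (2 * k) := Nat.add_le_add e1 (hcX.trans hX2)
        _ = _ := by ring
    exact_mod_cast e2
  have hv : (0 : ℝ) < ((x ^ 2 + x + c : ℕ) : ℝ) := by exact_mod_cast (by omega : 0 < x ^ 2 + x + c)
  have h3 := Real.log_le_log hY h1
  rw [hlY, Real.log_mul hv.ne' (by positivity), Real.log_pow] at h3
  have h4 := Real.log_le_log hv h2
  have hF1 : ((F₀ : ℝ) + 1) ≠ 0 := by
    have : (0 : ℝ) ≤ F₀ := Nat.cast_nonneg _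
    linarith
  rw [Real.log_mul hF1 hY.ne', hlY] at h4
  rw [abs_le] at hL ⊢
  have hUk : 0 ≤ (U : ℝ) * Real.log k := mul_nonneg hU hlk
  constructor <;> linarith [hL.1, hL.2]

/-- logarithms are small -/
lemma ev (C₁ C₂ : ℝ) (δ : ℝ) (hδ : 0 < δ) : ∃ K₀ : ℕ, ∀ k : ℕ, K₀ ≤ k → C₁ * Real.log k + C₂ ≤ δ * k := by
  have h1 : ∀ᶠ k : ℕ in Filter.atTop, |C₁| * ‖Real.log (k : ℝ)‖ ≤ δ / 2 * ‖(k : ℝ)‖ := by
    have h2 := (Real.isLittleO_log_id_atTop.comp_tendsto (tendsto_natCast_atTop_atTop (R := ℝ))).def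
      (show (0 : ℝ) < δ / 2 / (|C₁| + 1) by positivity)
    filter_upwards [h2] with k hk
    simp only [Function.comp_apply, id] at hk
    have h3 : |C₁| * ‖Real.log (k : ℝ)‖ ≤ |C₁| * (δ / 2 / (|C₁| + 1) * ‖(k : ℝ)‖) := mul_le_mul_of_nonneg_left hk (abs_nonneg _)
    refine h3.trans ?_
    have h4 : |C₁| * (δ / 2 / (|C₁| + 1) * ‖(k : ℝ)‖) = (|C₁| / (|C₁| + 1)) * (δ / 2 * ‖(k : ℝ)‖) := by
      have : |C₁| + 1 ≠ 0 := by positivity
      field_simp
    rw [h4]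
    have h5 : |C₁| / (|C₁| + 1) ≤ 1 := by
      rw [div_le_one (by positivity)]
      linarith
    calc _ ≤ 1 * (δ / 2 * ‖(k : ℝ)‖) := mul_le_mul_of_nonneg_right h5 (by positivity)
      _ = _ := one_mul _
  obtain ⟨K1, hK1⟩ := Filter.eventually_atTop.1 h1
  obtain ⟨K2, hK2⟩ := exists_nat_ge (2 * |C₂| / δ)
  refine ⟨K1 + K2, fun k hk => ?_⟩
  have h2 := hK1 k (by omega)
  have h3 : C₁ * Real.log k ≤ |C₁| * ‖Real.log (k : ℝ)‖ := by
    rw [Real.norm_eq_abs, ← abs_mul]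
    exact le_abs_self _
  have h4 : C₂ ≤ δ / 2 * k := by
    have h5 : 2 * |C₂| / δ ≤ k := hK2.trans (by exact_mod_cast (by omega : K2 ≤ k))
    rw [div_le_iff₀ hδ] at h5
    have := le_abs_self C₂
    linarith
  rw [Real.norm_natCast] at h2
  linarith

open Classical in
theorem core (b : ℕ) (hb : 2 ≤ b) (r F₀ U K : ℕ) (C ε : ℝ) (hC : 0 ≤ C) (hε : 0 < ε) :
    ∃ B : ℕ, ∀ E : ℕ, ∃ K₀ : ℕ, ∀ k : ℕ, K₀ ≤ k → ∀ z : ℕ, (k : ℝ) ^ B ≤ z → (z : ℝ) ≤ (k : ℝ) ^ E →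
    ∀ D : ℕ → Finset ℕ, (∀ i < k, D i ⊆ range b ∧ 2 ≤ (D i).card) →
    ∀ X : ℕ, b ^ (2 * k) ≤ X → X ≤ F₀ * b ^ (2 * k) → ∀ L : ℝ, |L - 2 * k * Real.log b| ≤ C → ∀ M : Set ℕ,
    (((Fintype.piFinset (fun _ : Fin r => Icc 1 X)).filter (fun c =>
      ¬ |(cnt (SD b D k) M c : ℝ) - rgh z (SD b D k) M c / (Vz z * L) ^ r| ≤
        ε * (rgh z (SD b D k) M c / (Vz z * L) ^ r) + ((SD b D k).card : ℝ) / (k : ℝ) ^ K)).card : ℝ) ≤
      (X : ℝ) ^ r / (k : ℝ) ^ U := by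
  have hld : ∀ _j : Fin r, ld 1 1 ≠ 0 := fun _ => by decide
  have hdg : dg 1 = 2 := dg_ne (by decide)
  obtain ⟨B, h1⟩ := tuple_any b hb (1 / 2) (by norm_num) r (fun _ => 1) (fun _ => 1) hld ∅ (fun _ => th)
    (fun j hj => absurd hj (notMem_empty j)) (fun _ _ n => ⟨le_rfl, th_le n⟩) F₀ (2 * (U + 1 + K))
  refine ⟨B, fun E => ?_⟩
  obtain ⟨K1, h2⟩ := h1 E
  -- the final range of k
  obtain ⟨K2, h3⟩ := ev (((r : ℝ) + 1) * (1 + ε) * (U + 2 : ℕ)) (((r : ℝ) + 1) * (1 + ε) * (Real.log (F₀ + 1) + C) + ε * C) (ε * 1) (by positivity)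
  obtain ⟨K3, h4⟩ := ev ((U + 2 : ℕ) : ℝ) (Real.log (F₀ + 1) + C + C + 1) 1 (by norm_num)
  refine ⟨K1 + K2 + K3 + r + 2, fun k hk z hz1 hz2 D hD X hX1 hX2 L hL M => ?_⟩
  have hkr : (r : ℝ) + 1 ≤ k := by exact_mod_cast (by omega : r + 1 ≤ k)
  have hk0 : (0 : ℝ) < k := by exact_mod_cast (by omega : 0 < k)
  have hk1 : (1 : ℝ) ≤ k := by exact_mod_cast (by omega : 1 ≤ k)
  obtain ⟨S, hS⟩ : ∃ S, S = SD b D k := ⟨_, rfl⟩
  have hS0 : (0 : ℝ) ≤ (S.card : ℝ) := Nat.cast_nonneg _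
  have h5 := h2 k (by omega) z hz1 hz2 (wD D k) (dig_wD b hb D k hD) 0 (fun _ => 1) (fun _ => Or.inl rfl) (fun _ => X)
    (fun _ => ⟨by rw [hdg]; exact hX1, by rw [hdg]; exact hX2⟩) (fun n => if n ∈ M then 1 else 0)
    (fun n => by split_ifs <;> norm_num)
  simp only [notMem_empty, if_false, sum_wD b hb D k hD] at h5
  rw [← hS] at h5 ⊢
  rw [prod_const, card_univ, Fintype.card_fin] at h5
  obtain ⟨g, hg⟩ : ∃ g : (Fin r → ℕ) → ℝ, ∀ c, g c = 1 / (S.card : ℝ) * ∑ n ∈ S, (if n ∈ M then (1 : ℝ) else 0) *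
      (∏ j, fx th (qv 1 1 n + 1 * (c j : ℤ)) - ∏ j, lamzI z (qv 1 1 n + 1 * (c j : ℤ))) := ⟨_, fun _ => rfl⟩
  simp only [← hg] at h5
  have h6 := almost (Fintype.piFinset (fun _ : Fin r => Icc 1 X)) g ((X : ℝ) ^ r) k (U + 1 + K) (by omega) h5
    (fun c => 1 / (k : ℝ) ^ (U + 1 + K) < |g c|) (fun c _ hc => hc)
  have h7 := small_count r X (k ^ (U + 2)) (Nat.one_le_pow _ _ (by omega))
  -- the logarithmic weights
  obtain ⟨a, ha⟩ : ∃ a : ℝ, a = (U + 2 : ℕ) * Real.log k + Real.log (F₀ + 1) + C := ⟨_, rfl⟩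
  have hlF : 0 ≤ Real.log ((F₀ : ℝ) + 1) := by
    apply Real.log_nonneg
    have : (0 : ℝ) ≤ F₀ := Nat.cast_nonneg _
    linarith
  have ha0 : 0 ≤ a := by
    rw [ha]
    have := Real.log_natCast_nonneg k
    positivity
  have hlb : 0.69 ≤ Real.log b := by
    have e1 : Real.log 2 ≤ Real.log b := Real.log_le_log (by norm_num) (by exact_mod_cast hb)
    have := Real.log_two_gt_d9
    linarith
  have hLk : k + 0.3 * k - C ≤ L := by
    rw [abs_le] at hL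
    have e1 : 2 * (k : ℝ) * 0.69 ≤ 2 * k * Real.log b := by
      apply mul_le_mul_of_nonneg_left hlb (by linarith)
    linarith [hL.1]
  have h3' := h3 k (by omega)
  have h4' := h4 k (by omega)
  have hLa : 1 ≤ L - a := by
    rw [ha]
    linarith
  have hLr : ((r : ℝ) + 1) * a * (1 + ε) ≤ ε * L := by
    have e1 : ((r : ℝ) + 1) * a * (1 + ε) = ((r : ℝ) + 1) * (1 + ε) * (U + 2 : ℕ) * Real.log k +
        ((r : ℝ) + 1) * (1 + ε) * (Real.log (F₀ + 1) + C) := by rw [ha]; ring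
    have e2 : ε * (k - C) ≤ ε * L := mul_le_mul_of_nonneg_left (by linarith) hε.le
    rw [e1]
    linarith
  have hsub : (Fintype.piFinset (fun _ : Fin r => Icc 1 X)).filter (fun c =>
      ¬ |(cnt S M c : ℝ) - rgh z S M c / (Vz z * L) ^ r| ≤
        ε * (rgh z S M c / (Vz z * L) ^ r) + (S.card : ℝ) / (k : ℝ) ^ K) ⊆
      (Fintype.piFinset (fun _ : Fin r => Icc 1 X)).filter (fun c => 1 / (k : ℝ) ^ (U + 1 + K) < |g c|) ∪
      (Fintype.piFinset (fun _ : Fin r => Icc 1 X)).filter (fun c => ∃ j, c j * k ^ (U + 2) ≤ X) := by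
    intro c hc
    rw [mem_filter] at hc
    rw [mem_union, mem_filter, mem_filter]
    by_contra hcon
    push Not at hcon
    obtain ⟨g1, g2⟩ := hcon
    have g1' := g1 hc.1
    have g2' := g2 hc.1
    apply hc.2
    have hcX := hc.1
    rw [Fintype.mem_piFinset] at hcX
    have hc1 : ∀ j, 1 ≤ c j := fun j => (mem_Icc.1 (hcX j)).1
    rcases S.eq_empty_or_nonempty with hSe | hSn
    · rw [hSe]
      simp [cnt, rgh]
    have hSc : (0 : ℝ) < (S.card : ℝ) := by exact_mod_cast hSn.card_pos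
    have hgc : g c = 1 / (S.card : ℝ) * (∑ x ∈ S, (if x ∈ M then (1 : ℝ) else 0) * ∏ j, th (x ^ 2 + x + c j) -
        rgh z S M c / Vz z ^ r) := by
      rw [hg, ← model, ← sum_sub_distrib]
      congr 1
      refine sum_congr rfl fun x _ => ?_
      rw [← mul_sub]
      congr 2
      · exact prod_congr rfl fun j _ => fx_eq x (c j) (hc1 j)
      · exact prod_congr rfl fun j _ => lz_eq z x (c j) (hc1 j)
    obtain ⟨w1, w2⟩ := weights S M c L a (by linarith) (by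
      intro x hx j
      have hx' : x < b ^ k := by
        rw [hS] at hx
        unfold SD at hx
        exact mem_range.1 (mem_filter.1 hx).1
      rw [ha]
      exact log_val b k F₀ (U + 2) x (c j) X hb (by omega) hx' hX1 hX2 (g2' j) (mem_Icc.1 (hcX j)).2 L C hL)
    obtain ⟨W, hW⟩ : ∃ W, W = ∑ x ∈ S, (if x ∈ M then (1 : ℝ) else 0) * ∏ j, th (x ^ 2 + x + c j) := ⟨_, rfl⟩
    rw [← hW] at hgc w1 w2
    have hV := Vz_pos z
    have hdev : |W - rgh z S M c / Vz z ^ r| ≤ (S.card : ℝ) / (k : ℝ) ^ K := by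
      rw [hgc, abs_mul, abs_of_nonneg (by positivity : (0 : ℝ) ≤ 1 / (S.card : ℝ)), one_div_mul_eq_div, div_le_iff₀ hSc] at g1'
      refine g1'.trans ?_
      rw [one_div_mul_eq_div]
      apply div_le_div_of_nonneg_left hS0 (by positivity)
      exact pow_le_pow_right₀ hk1 (by omega)
    have hfin := conv r (cnt S M c) W (rgh z S M c / Vz z ^ r) ((S.card : ℝ) / (k : ℝ) ^ K) L a ε (Nat.cast_nonneg _)
      (by positivity) (by positivity) ha0 hε hLa hLr w1 w2 hdev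
    rw [div_div, ← mul_pow] at hfin
    exact hfin
  have h8 : ((Fintype.piFinset (fun _ : Fin r => Icc 1 X)).filter (fun c => 1 / (k : ℝ) ^ (U + 1 + K) < |g c|)).card +
      ((Fintype.piFinset (fun _ : Fin r => Icc 1 X)).filter (fun c => ∃ j, c j * k ^ (U + 2) ≤ X)).card ≤
      ((X : ℝ) ^ r / (k : ℝ) ^ (U + 1 + K) + r * ((X : ℝ) ^ r / ((k ^ (U + 2) : ℕ) : ℝ)) : ℝ) := add_le_add h6 h7
  refine le_trans (show _ ≤ _ by exact_mod_cast (card_le_card hsub).trans (card_union_le _ _)) (h8.trans ?_)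
  have hX0 : (0 : ℝ) ≤ (X : ℝ) ^ r := by positivity
  have e1 : (X : ℝ) ^ r / (k : ℝ) ^ (U + 1 + K) ≤ (X : ℝ) ^ r / (k : ℝ) ^ (U + 1) :=
    div_le_div_of_nonneg_left hX0 (by positivity) (pow_le_pow_right₀ hk1 (by omega))
  have e2 : (X : ℝ) ^ r / (k : ℝ) ^ (U + 1) = (X : ℝ) ^ r / (k : ℝ) ^ U * (1 / k) := by
    rw [pow_succ]; field_simp
  have e3 : r * ((X : ℝ) ^ r / ((k ^ (U + 2) : ℕ) : ℝ)) = (X : ℝ) ^ r / (k : ℝ) ^ U * (r / k ^ 2) := by
    push_cast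
    rw [pow_add]; field_simp
  have e4 : (1 : ℝ) / k + r / k ^ 2 ≤ 1 := by
    rw [div_add_div _ _ hk0.ne' (by positivity), div_le_one (by positivity)]
    have hr0 : (0 : ℝ) ≤ r := Nat.cast_nonneg r
    have e5 : (k : ℝ) * k * (r + 1) ≤ k * k * k := mul_le_mul_of_nonneg_left hkr (by positivity)
    have e6 : (k : ℝ) * r * 1 ≤ k * r * k := mul_le_mul_of_nonneg_left hk1 (by positivity)
    nlinarith
  calc (X : ℝ) ^ r / (k : ℝ) ^ (U + 1 + K) + r * ((X : ℝ) ^ r / ((k ^ (U + 2) : ℕ) : ℝ)) ≤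
        (X : ℝ) ^ r / (k : ℝ) ^ U * (1 / k + r / k ^ 2) := by
        rw [mul_add, ← e2, ← e3]
        linarith
    _ ≤ (X : ℝ) ^ r / (k : ℝ) ^ U * 1 := mul_le_mul_of_nonneg_left e4 (by positivity)
    _ = _ := mul_one _

end Pool.Agent.E8helper86.CF
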