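import Pool.Agent.E8helper86.CF.Core

set_option autoImplicit false

/-! Uniformity in windows and residue classes for sets of integers with restricted digits. -/

namespace Pool.Agent.E8helper86.CF
open Finset
open Pool.Agent.TH872.Sq (SD)
open Pool.Agent.H373R2.T7 (Vz Vz_pos Vz_inv_small)

/-- the elements of `M` in a window and in a residue class -/
def win (M : Set ℕ) (y₁ y₂ q a : ℕ) : Set ℕ := {x | x ∈ M ∧ y₁ ≤ x ∧ x < y₂ ∧ x % q = a}

/-- a grid of `T + 1` points which divides `S` into parts of at most `|S| / T` elements -/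
lemma grid (S : Finset ℕ) (T : ℕ) : ∃ g : ℕ → ℕ, ∀ n : ℕ, ∃ t : ℕ, t ≤ T ∧ g t ≤ n ∧
    (S.filter (fun x => g t ≤ x ∧ x < n)).card * T ≤ S.card := by
  rcases Nat.eq_zero_or_pos S.card with h0 | h0
  · refine ⟨fun _ => 0, fun n => ⟨0, Nat.zero_le _, Nat.zero_le _, ?_⟩⟩
    rw [card_eq_zero] at h0
    rw [h0]
    simp
  obtain ⟨f, hf⟩ : ∃ f : ℕ → ℕ, ∀ n, f n = (S.filter (fun x => x < n)).card := ⟨_, fun _ => rfl⟩
  have hfS : ∀ n, f n ≤ S.card := fun n => by rw [hf]; exact card_filter_le _ _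
  refine ⟨fun t => sInf {n | t * S.card ≤ f n * T}, fun n => ?_⟩
  obtain ⟨t, ht⟩ : ∃ t, t = f n * T / S.card := ⟨_, rfl⟩
  have h1 : t * S.card ≤ f n * T := by rw [ht]; exact Nat.div_mul_le_self _ _
  have h2 : f n * T < (t + 1) * S.card := by
    have g1 := Nat.div_add_mod (f n * T) S.card
    have g2 := Nat.mod_lt (f n * T) h0
    rw [← ht] at g1
    nlinarith
  have h3 : sInf {n | t * S.card ≤ f n * T} ≤ n := Nat.sInf_le h1
  have h4 : t * S.card ≤ f (sInf {n | t * S.card ≤ f n * T}) * T := Nat.sInf_mem (⟨n, h1⟩ : {n | t * S.card ≤ f n * T}.Nonempty)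
  obtain ⟨m, hm⟩ : ∃ m, m = sInf {n | t * S.card ≤ f n * T} := ⟨_, rfl⟩
  rw [← hm] at h3 h4
  refine ⟨t, ?_, ?_, ?_⟩
  · rw [ht]
    apply Nat.div_le_of_le_mul
    exact Nat.mul_le_mul_right T (hfS n)
  · beta_reduce
    rw [← hm]; exact h3
  · beta_reduce
    rw [← hm]
    have h5 : (S.filter (fun x => m ≤ x ∧ x < n)).card + f m = f n := by
      rw [hf, hf, ← card_union_of_disjoint]
      · congr 1
        ext x
        simp only [mem_union, mem_filter]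
        constructor
        · rintro (⟨g1, g2, g3⟩ | ⟨g1, g2⟩)
          · exact ⟨g1, g3⟩
          · exact ⟨g1, by omega⟩
        · rintro ⟨g1, g2⟩
          by_cases h : x < m
          · exact Or.inr ⟨g1, h⟩
          · exact Or.inl ⟨g1, by omega, g2⟩
      · rw [disjoint_left]
        intro x hx hx'
        rw [mem_filter] at hx hx'
        omega
    nlinarith

open Classical in
/-- the number of elements of a window changes little -/
lemma win_card (S : Finset ℕ) (M : Set ℕ) (p : ℕ → Prop) (y₁ y₂ g₁ g₂ q a d : ℕ) (h1 : g₁ ≤ y₁) (h2 : g₂ ≤ y₂)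
    (h3 : (S.filter (fun x => g₁ ≤ x ∧ x < y₁)).card ≤ d) (h4 : (S.filter (fun x => g₂ ≤ x ∧ x < y₂)).card ≤ d) :
    |((S.filter (fun x => x ∈ win M y₁ y₂ q a ∧ p x)).card : ℝ) - ((S.filter (fun x => x ∈ win M g₁ g₂ q a ∧ p x)).card : ℝ)| ≤ d := by
  have e1 : S.filter (fun x => x ∈ win M y₁ y₂ q a ∧ p x) ⊆ S.filter (fun x => x ∈ win M g₁ g₂ q a ∧ p x) ∪ S.filter (fun x => g₂ ≤ x ∧ x < y₂) := by
    intro x hx
    rw [mem_filter] at hx
    obtain ⟨b1, ⟨b2, b3, b4, b5⟩, b6⟩ := hx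
    rw [mem_union, mem_filter, mem_filter]
    by_cases h : x < g₂
    · exact Or.inl ⟨b1, ⟨b2, h1.trans b3, h, b5⟩, b6⟩
    · exact Or.inr ⟨b1, by omega, b4⟩
  have e2 : S.filter (fun x => x ∈ win M g₁ g₂ q a ∧ p x) ⊆ S.filter (fun x => x ∈ win M y₁ y₂ q a ∧ p x) ∪ S.filter (fun x => g₁ ≤ x ∧ x < y₁) := by
    intro x hx
    rw [mem_filter] at hx
    obtain ⟨b1, ⟨b2, b3, b4, b5⟩, b6⟩ := hx
    rw [mem_union, mem_filter, mem_filter]
    by_cases h : x < y₁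
    · exact Or.inr ⟨b1, b3, h⟩
    · exact Or.inl ⟨b1, ⟨b2, by omega, by omega, b5⟩, b6⟩
  have e3 := (card_le_card e1).trans (card_union_le _ _)
  have e4 := (card_le_card e2).trans (card_union_le _ _)
  have e5 : ((S.filter (fun x => x ∈ win M y₁ y₂ q a ∧ p x)).card : ℝ) ≤ ((S.filter (fun x => x ∈ win M g₁ g₂ q a ∧ p x)).card : ℝ) + d := by
    exact_mod_cast e3.trans (Nat.add_le_add_left h4 _)
  have e6 : ((S.filter (fun x => x ∈ win M g₁ g₂ q a ∧ p x)).card : ℝ) ≤ ((S.filter (fun x => x ∈ win M y₁ y₂ q a ∧ p x)).card : ℝ) + d := by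
    exact_mod_cast e4.trans (Nat.add_le_add_left h3 _)
  rw [abs_le]
  constructor <;> linarith

/-- the density of the rough numbers times the logarithm is at least one -/
lemma VL_one (b : ℕ) (hb : 2 ≤ b) (E : ℕ) : ∃ K₀ : ℕ, ∀ k : ℕ, K₀ ≤ k → ∀ z : ℕ, 1 ≤ z → (z : ℝ) ≤ (k : ℝ) ^ E →
    1 ≤ Vz z * Real.log ((b : ℝ) ^ (2 * k)) := by
  obtain ⟨N0, h⟩ := Vz_inv_small E
  refine ⟨N0 + 2, fun k hk z hz1 hz2 => ?_⟩
  have hlog3 : (1 : ℝ) ≤ Real.log 3 := by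
    rw [Real.le_log_iff_exp_le (by norm_num)]
    have := Real.exp_one_lt_d9
    linarith
  have hlog3' : Real.log 3 ≤ 2 * Real.log b := by
    have e1 : Real.log 2 ≤ Real.log b := Real.log_le_log (by norm_num) (by exact_mod_cast hb)
    have e2 : Real.log 3 ≤ Real.log (2 ^ 2) := Real.log_le_log (by norm_num) (by norm_num)
    rw [Real.log_pow] at e2
    push_cast at e2
    linarith
  have hk0 : (0 : ℝ) < k := by exact_mod_cast (by omega : 0 < k)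
  have e1 : Real.log ((3 ^ k : ℕ) : ℝ) = k * Real.log 3 := by
    push_cast
    rw [Real.log_pow]
  have e2 : N0 ≤ 3 ^ k := by
    have := Nat.lt_pow_self (show 1 < 3 by norm_num) (n := k)
    omega
  have h1 := h (3 ^ k) e2 z hz1 (by
    rw [e1]
    refine hz2.trans (pow_le_pow_left₀ hk0.le ?_ E)
    nlinarith)
  rw [e1] at h1
  have hV := Vz_pos z
  rw [inv_le_iff_one_le_mul₀ hV] at h1
  have e3 : Real.log ((b : ℝ) ^ (2 * k)) = 2 * k * Real.log b := by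
    rw [Real.log_pow]; push_cast; ring
  rw [e3]
  refine h1.trans ?_
  rw [mul_comm]
  apply mul_le_mul_of_nonneg_left _ hV.le
  nlinarith

open Classical in
theorem dig (b : ℕ) (hb : 2 ≤ b) (r F₀ U K W : ℕ) (ε : ℝ) (hε : 0 < ε) :
    ∃ B : ℕ, ∀ E : ℕ, ∃ K₀ : ℕ, ∀ k : ℕ, K₀ ≤ k → ∀ z : ℕ, (k : ℝ) ^ B ≤ z → (z : ℝ) ≤ (k : ℝ) ^ E →
    ∀ D : ℕ → Finset ℕ, (∀ i < k, D i ⊆ range b ∧ 2 ≤ (D i).card) →
    ∀ X : ℕ, b ^ (2 * k) ≤ X → X ≤ F₀ * b ^ (2 * k) → ∀ m : ℕ, (m : ℝ) ≤ (k : ℝ) ^ W → ∀ M : Fin m → Set ℕ,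
    (((Fintype.piFinset (fun _ : Fin r => Icc 1 X)).filter (fun c =>
      ¬ ∀ l : Fin m, ∀ y₁ y₂ q a : ℕ, 1 ≤ q → (q : ℝ) ≤ (k : ℝ) ^ K →
        |(cnt (SD b D k) (win (M l) y₁ y₂ q a) c : ℝ) -
          rgh z (SD b D k) (win (M l) y₁ y₂ q a) c / (Vz z * Real.log ((b : ℝ) ^ (2 * k))) ^ r| ≤
        ε * (rgh z (SD b D k) (win (M l) y₁ y₂ q a) c / (Vz z * Real.log ((b : ℝ) ^ (2 * k))) ^ r) +
          ((SD b D k).card : ℝ) / (k : ℝ) ^ K)).card : ℝ) ≤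
      (X : ℝ) ^ r / (k : ℝ) ^ U := by
  obtain ⟨H, hH⟩ : ∃ H : ℕ, 3 * (2 + ε) ≤ H := exists_nat_ge _
  obtain ⟨B, h1⟩ := core b hb r F₀ (U + (4 * K + W + 3)) (K + 1) 0 ε le_rfl hε
  refine ⟨B, fun E => ?_⟩
  obtain ⟨K1, h2⟩ := h1 E
  obtain ⟨K2, h3⟩ := VL_one b hb E
  refine ⟨K1 + K2 + 16 * H ^ 2 + 16, fun k hk z hz1 hz2 D hD X hX1 hX2 m hm M => ?_⟩
  have hH0 : (6 : ℝ) ≤ H := by linarith
  have hk0 : (0 : ℝ) < k := by exact_mod_cast (by omega : 0 < k)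
  have hkH : 16 * (H : ℝ) ^ 2 + 16 ≤ k := by exact_mod_cast (by omega : 16 * H ^ 2 + 16 ≤ k)
  have hk1 : (1 : ℝ) ≤ k := by nlinarith
  have hlK : 1 ≤ (k : ℝ) ^ K := one_le_pow₀ hk1
  have hz : 1 ≤ z := by
    have : (1 : ℝ) ≤ z := le_trans (one_le_pow₀ hk1) hz1
    exact_mod_cast this
  have hVl : 1 ≤ (Vz z * Real.log ((b : ℝ) ^ (2 * k))) ^ r := one_le_pow₀ (h3 k (by omega) z hz hz2)
  have hL0 : |Real.log ((b : ℝ) ^ (2 * k)) - 2 * k * Real.log b| ≤ 0 := by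
    rw [Real.log_pow]
    push_cast
    rw [sub_self, abs_zero]
  obtain ⟨P, hP⟩ : ∃ P, P = (Vz z * Real.log ((b : ℝ) ^ (2 * k))) ^ r := ⟨_, rfl⟩
  rw [← hP] at hVl ⊢
  obtain ⟨S, hS⟩ : ∃ S, S = SD b D k := ⟨_, rfl⟩
  rw [← hS]
  have hS0 : (0 : ℝ) ≤ (S.card : ℝ) := Nat.cast_nonneg _
  -- the grid
  obtain ⟨T, hT⟩ : ∃ T, T = H * k ^ K := ⟨_, rfl⟩
  have hTr : (T : ℝ) = H * (k : ℝ) ^ K := by rw [hT]; push_cast; ring
  have hT0 : (0 : ℝ) < T := by rw [hTr]; positivity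
  obtain ⟨G, hG⟩ := grid S T
  obtain ⟨I, hI⟩ : ∃ I : Finset (Fin m × ℕ × ℕ × ℕ × ℕ), I = univ ×ˢ (range (T + 1) ×ˢ (range (T + 1) ×ˢ (Icc 1 (k ^ K) ×ˢ range (k ^ K)))) := ⟨_, rfl⟩
  have hIc : (I.card : ℝ) ≤ (k : ℝ) ^ (4 * K + W + 3) := by
    rw [hI, card_product, card_product, card_product, card_product, card_range, card_range, Nat.card_Icc, Nat.add_sub_cancel, card_univ,
      Fintype.card_fin]
    push_cast
    rw [hTr]
    have g1 : (H : ℝ) * (k : ℝ) ^ K + 1 ≤ 2 * H * (k : ℝ) ^ K := by nlinarith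
    have g2 : 4 * (H : ℝ) ^ 2 ≤ k ^ 3 := by
      have : (k : ℝ) ≤ k ^ 3 := le_self_pow₀ hk1 (by norm_num)
      nlinarith
    calc (m : ℝ) * (((H : ℝ) * (k : ℝ) ^ K + 1) * (((H : ℝ) * (k : ℝ) ^ K + 1) * ((k : ℝ) ^ K * (k : ℝ) ^ K))) ≤
          (k : ℝ) ^ W * ((2 * H * (k : ℝ) ^ K) * ((2 * H * (k : ℝ) ^ K) * ((k : ℝ) ^ K * (k : ℝ) ^ K))) := by
          gcongr
      _ = 4 * (H : ℝ) ^ 2 * (k : ℝ) ^ (4 * K + W) := by ring
      _ ≤ k ^ 3 * (k : ℝ) ^ (4 * K + W) := mul_le_mul_of_nonneg_right g2 (by positivity)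
      _ = _ := by ring
  -- the exceptional sets of the grid
  obtain ⟨A, hA⟩ : ∃ A : Fin m × ℕ × ℕ × ℕ × ℕ → Finset (Fin r → ℕ), ∀ t, A t = (Fintype.piFinset (fun _ : Fin r => Icc 1 X)).filter (fun c =>
      ¬ |(cnt S (win (M t.1) (G t.2.1) (G t.2.2.1) t.2.2.2.1 t.2.2.2.2) c : ℝ) - rgh z S (win (M t.1) (G t.2.1) (G t.2.2.1) t.2.2.2.1 t.2.2.2.2) c / P| ≤
        ε * (rgh z S (win (M t.1) (G t.2.1) (G t.2.2.1) t.2.2.2.1 t.2.2.2.2) c / P) + (S.card : ℝ) / (k : ℝ) ^ (K + 1)) := ⟨_, fun _ => rfl⟩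
  have hAc : ∀ t, ((A t).card : ℝ) ≤ (X : ℝ) ^ r / (k : ℝ) ^ (U + (4 * K + W + 3)) := by
    intro t
    rw [hA, hP, hS]
    exact h2 k (by omega) z hz1 hz2 D hD X hX1 hX2 _ hL0 (win (M t.1) (G t.2.1) (G t.2.2.1) t.2.2.2.1 t.2.2.2.2)
  have hsub : (Fintype.piFinset (fun _ : Fin r => Icc 1 X)).filter (fun c =>
      ¬ ∀ l : Fin m, ∀ y₁ y₂ q a : ℕ, 1 ≤ q → (q : ℝ) ≤ (k : ℝ) ^ K →
        |(cnt S (win (M l) y₁ y₂ q a) c : ℝ) - rgh z S (win (M l) y₁ y₂ q a) c / P| ≤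
        ε * (rgh z S (win (M l) y₁ y₂ q a) c / P) + (S.card : ℝ) / (k : ℝ) ^ K) ⊆ I.biUnion A := by
    intro c hc
    rw [mem_filter] at hc
    obtain ⟨hc1, hc2⟩ := hc
    rw [mem_biUnion]
    by_contra hcon
    push Not at hcon
    apply hc2
    intro l y₁ y₂ q a hq hqK
    have hP0 : 0 < P := by linarith
    by_cases haq : q ≤ a
    · have hw : ∀ x, x ∉ win (M l) y₁ y₂ q a := by
        rintro x ⟨_, _, _, g⟩
        have := Nat.mod_lt x (by omega : 0 < q)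
        omega
      have hc0 : cnt S (win (M l) y₁ y₂ q a) c = 0 := by
        unfold cnt
        rw [card_eq_zero, filter_eq_empty_iff]
        rintro x _ ⟨g, _⟩
        exact hw x g
      have hr0 : rgh z S (win (M l) y₁ y₂ q a) c = 0 := by
        unfold rgh
        rw [card_eq_zero, filter_eq_empty_iff]
        rintro x _ ⟨g, _⟩
        exact hw x g
      rw [hc0, hr0]
      simp only [Nat.cast_zero, zero_div, sub_zero, abs_zero, mul_zero, zero_add]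
      positivity
    · have hqQ : q ≤ k ^ K := by exact_mod_cast hqK
      obtain ⟨t1, a1, a2, a3⟩ := hG y₁
      obtain ⟨t2, b1, b2, b3⟩ := hG y₂
      have hmem : (l, t1, t2, q, a) ∈ I := by
        rw [hI]
        simp only [mem_product, mem_range, mem_Icc, mem_univ, true_and]
        exact ⟨by omega, by omega, ⟨hq, hqQ⟩, by omega⟩
      have g := hcon _ hmem
      rw [hA, mem_filter] at g
      push Not at g
      have g1 := g hc1
      simp only at g1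
      obtain ⟨d, hd⟩ : ∃ d, d = max (S.filter (fun x => G t1 ≤ x ∧ x < y₁)).card (S.filter (fun x => G t2 ≤ x ∧ x < y₂)).card := ⟨_, rfl⟩
      have hdT : (d : ℝ) ≤ (S.card : ℝ) / (k : ℝ) ^ K * (1 / H) := by
        have e1 : d * T ≤ S.card := by
          rw [hd]
          rcases max_cases (S.filter (fun x => G t1 ≤ x ∧ x < y₁)).card (S.filter (fun x => G t2 ≤ x ∧ x < y₂)).card with ⟨e, _⟩ | ⟨e, _⟩
          · rw [e]; exact a3
          · rw [e]; exact b3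
        have e2 : (d : ℝ) * (H * (k : ℝ) ^ K) ≤ S.card := by
          rw [← hTr]
          exact_mod_cast e1
        rw [div_mul_div_comm, mul_one, le_div_iff₀ (by positivity)]
        linarith
      have m1 : |(cnt S (win (M l) y₁ y₂ q a) c : ℝ) - cnt S (win (M l) (G t1) (G t2) q a) c| ≤ d := by
        unfold cnt
        convert win_card S (M l) (fun x => ∀ j, (x ^ 2 + x + c j).Prime) y₁ y₂ (G t1) (G t2) q a d a2 b2
          (by rw [hd]; exact le_max_left _ _) (by rw [hd]; exact le_max_right _ _)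
      have m2 : |(rgh z S (win (M l) y₁ y₂ q a) c : ℝ) - rgh z S (win (M l) (G t1) (G t2) q a) c| ≤ d := by
        unfold rgh
        convert win_card S (M l) (fun x => ∀ j, ∀ p : ℕ, p.Prime → p ≤ z → ¬ p ∣ x ^ 2 + x + c j) y₁ y₂ (G t1) (G t2) q a d a2 b2
          (by rw [hd]; exact le_max_left _ _) (by rw [hd]; exact le_max_right _ _)
      obtain ⟨x0, hx0⟩ : ∃ x : ℝ, x = cnt S (win (M l) (G t1) (G t2) q a) c := ⟨_, rfl⟩
      obtain ⟨x1, hx1⟩ : ∃ x : ℝ, x = cnt S (win (M l) y₁ y₂ q a) c := ⟨_, rfl⟩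
      obtain ⟨y0, hy0⟩ : ∃ x : ℝ, x = rgh z S (win (M l) (G t1) (G t2) q a) c := ⟨_, rfl⟩
      obtain ⟨y1, hy1⟩ : ∃ x : ℝ, x = rgh z S (win (M l) y₁ y₂ q a) c := ⟨_, rfl⟩
      rw [← hx0, ← hx1] at m1
      rw [← hy0, ← hy1] at m2
      rw [← hx0, ← hy0] at g1
      rw [← hx1, ← hy1]
      have hd0 : (0 : ℝ) ≤ d := Nat.cast_nonneg _
      have e2 : |y1 / P - y0 / P| ≤ d := by
        rw [← sub_div, abs_div, abs_of_pos hP0, div_le_iff₀ hP0]
        exact m2.trans (le_mul_of_one_le_right hd0 hVl)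
      have e4 : (S.card : ℝ) / (k : ℝ) ^ (K + 1) ≤ (S.card : ℝ) / (k : ℝ) ^ K * (1 / 16) := by
        rw [pow_succ, ← div_div, div_eq_mul_one_div ((S.card : ℝ) / (k : ℝ) ^ K) (k : ℝ)]
        apply mul_le_mul_of_nonneg_left _ (by positivity)
        have hH2 : 0 ≤ 16 * (H : ℝ) ^ 2 := by positivity
        exact one_div_le_one_div_of_le (by norm_num) (by linarith)
      have e5 : 0 ≤ (S.card : ℝ) / (k : ℝ) ^ K := by positivity
      have e6 : (2 + ε) * d ≤ (S.card : ℝ) / (k : ℝ) ^ K * (1 / 3) := by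
        have e7 : (2 + ε) * d ≤ (2 + ε) * ((S.card : ℝ) / (k : ℝ) ^ K * (1 / H)) := mul_le_mul_of_nonneg_left hdT (by linarith)
        refine e7.trans ?_
        have e8 : (2 + ε) * (1 / (H : ℝ)) ≤ 1 / 3 := by
          rw [mul_one_div, div_le_iff₀ (by linarith)]
          linarith
        calc (2 + ε) * ((S.card : ℝ) / (k : ℝ) ^ K * (1 / H)) = (S.card : ℝ) / (k : ℝ) ^ K * ((2 + ε) * (1 / H)) := by ring
          _ ≤ _ := mul_le_mul_of_nonneg_left e8 e5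
      rw [abs_le] at g1 m1 e2 ⊢
      have e9 : ε * (y0 / P) ≤ ε * (y1 / P) + ε * d := by
        rw [← mul_add]
        exact mul_le_mul_of_nonneg_left (by linarith [e2.1]) hε.le
      have e10 : (2 + ε) * d = d + d + ε * d := by ring
      rw [e10] at e6
      constructor
      · linarith [g1.1, m1.1, e2.1, e2.2]
      · linarith [g1.2, m1.2, e2.1, e2.2]
  have hX0 : (0 : ℝ) ≤ (X : ℝ) ^ r := by positivity
  calc (((Fintype.piFinset (fun _ : Fin r => Icc 1 X)).filter (fun c =>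
      ¬ ∀ l : Fin m, ∀ y₁ y₂ q a : ℕ, 1 ≤ q → (q : ℝ) ≤ (k : ℝ) ^ K →
        |(cnt S (win (M l) y₁ y₂ q a) c : ℝ) - rgh z S (win (M l) y₁ y₂ q a) c / P| ≤
        ε * (rgh z S (win (M l) y₁ y₂ q a) c / P) + (S.card : ℝ) / (k : ℝ) ^ K)).card : ℝ) ≤ ((I.biUnion A).card : ℝ) := by
        exact_mod_cast card_le_card hsub
    _ ≤ ∑ t ∈ I, ((A t).card : ℝ) := by exact_mod_cast card_biUnion_le
    _ ≤ ∑ _t ∈ I, (X : ℝ) ^ r / (k : ℝ) ^ (U + (4 * K + W + 3)) := sum_le_sum fun t _ => hAc t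
    _ = I.card * ((X : ℝ) ^ r / (k : ℝ) ^ (U + (4 * K + W + 3))) := by rw [sum_const, nsmul_eq_mul]
    _ ≤ (k : ℝ) ^ (4 * K + W + 3) * ((X : ℝ) ^ r / (k : ℝ) ^ (U + (4 * K + W + 3))) := mul_le_mul_of_nonneg_right hIc (by positivity)
    _ = _ := by
      rw [pow_add _ U]
      field_simp

end Pool.Agent.E8helper86.CF
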