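import Pool.Agent.E8helper86.CF.Core

set_option autoImplicit false

/-! The version for all `N`. -/

namespace Pool.Agent.E8helper86.CF
open Finset
open Pool.Agent.TH872.Sq (SD)
open Pool.Agent.H373R2.T7 (Vz Vz_pos)

lemma SD_two (k : ℕ) : SD 2 (fun _ => range 2) k = range (2 ^ k) := by
  unfold SD
  rw [filter_true_of_mem]
  intro n _ i _
  exact mem_range.2 (Nat.mod_lt _ (by norm_num))

open Classical in
lemma cnt_cut {r : ℕ} (N N' : ℕ) (h : N ≤ N') (M : Set ℕ) (c : Fin r → ℕ) :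
    cnt (range N') {x | x ∈ M ∧ x < N} c = cnt (range N) M c := by
  unfold cnt
  congr 1
  ext x
  simp only [mem_filter, mem_range, Set.mem_ofPred_eq]
  constructor
  · rintro ⟨h1, ⟨h2, h3⟩, h4⟩
    exact ⟨h3, h2, h4⟩
  · rintro ⟨h1, h2, h3⟩
    exact ⟨by omega, ⟨h2, h1⟩, h3⟩

open Classical in
lemma rgh_cut {r : ℕ} (z N N' : ℕ) (h : N ≤ N') (M : Set ℕ) (c : Fin r → ℕ) :
    rgh z (range N') {x | x ∈ M ∧ x < N} c = rgh z (range N) M c := by
  unfold rgh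
  congr 1
  ext x
  simp only [mem_filter, mem_range, Set.mem_ofPred_eq]
  constructor
  · rintro ⟨h1, ⟨h2, h3⟩, h4⟩
    exact ⟨h3, h2, h4⟩
  · rintro ⟨h1, h2, h3⟩
    exact ⟨by omega, ⟨h2, h1⟩, h3⟩

open Classical in
theorem general (r U K : ℕ) (ε : ℝ) (hε : 0 < ε) :
    ∃ B : ℕ, ∀ E : ℕ, ∃ N₀ : ℕ, ∀ N : ℕ, N₀ ≤ N → ∀ z : ℕ, Real.log N ^ B ≤ z → (z : ℝ) ≤ Real.log N ^ E → ∀ M : Set ℕ,
    (((Fintype.piFinset (fun _ : Fin r => Icc 1 (N ^ 2))).filter (fun c =>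
      ¬ |(cnt (range N) M c : ℝ) - rgh z (range N) M c / (Vz z * (2 * Real.log N)) ^ r| ≤
        ε * (rgh z (range N) M c / (Vz z * (2 * Real.log N)) ^ r) + (N : ℝ) / Real.log N ^ K)).card : ℝ) ≤
      ((N : ℝ) ^ 2) ^ r / Real.log N ^ U := by
  obtain ⟨B, h1⟩ := core 2 le_rfl r 1 (U + 1) (K + 1) 2 ε (by norm_num) hε
  refine ⟨B + 1, fun E => ?_⟩
  obtain ⟨K₀, h2⟩ := h1 E
  -- large N
  have hlog : Filter.Tendsto (fun N : ℕ => Real.log (N : ℝ)) Filter.atTop Filter.atTop :=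
    Real.tendsto_log_atTop.comp tendsto_natCast_atTop_atTop
  obtain ⟨N1, hN1⟩ := Filter.eventually_atTop.1 (hlog.eventually_ge_atTop ((2 : ℝ) ^ B + 4 ^ r + 2 + K₀))
  refine ⟨N1 + 2, fun N hN z hz1 hz2 M => ?_⟩
  have hl := hN1 N (by omega)
  have h2B : (1 : ℝ) ≤ 2 ^ B := one_le_pow₀ (by norm_num)
  have h4r : (1 : ℝ) ≤ 4 ^ r := one_le_pow₀ (by norm_num)
  have hK0 : (0 : ℝ) ≤ K₀ := Nat.cast_nonneg _
  have hl0 : 0 < Real.log (N : ℝ) := by linarith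
  obtain ⟨k, hk⟩ : ∃ k, k = Nat.clog 2 N := ⟨_, rfl⟩
  have hN2 : 2 ≤ N := by omega
  have hNk : N ≤ 2 ^ k := by rw [hk]; exact Nat.le_pow_clog (by norm_num) N
  have hk1 : 1 ≤ k := by
    rw [hk]
    exact Nat.clog_pos (by norm_num) hN2
  have hkN : 2 ^ (k - 1) < N := by
    rw [hk]
    exact Nat.pow_pred_clog_lt_self (by norm_num) (by omega)
  have hkN2 : 2 ^ k ≤ 2 * N := by
    obtain ⟨m, rfl⟩ : ∃ m, k = m + 1 := ⟨k - 1, by omega⟩
    rw [Nat.add_sub_cancel] at hkN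
    rw [pow_succ]
    omega
  have hN0 : (0 : ℝ) < N := by exact_mod_cast (by omega : 0 < N)
  have hl2 : Real.log 2 ≤ 1 := by
    have := Real.log_two_lt_d9
    linarith
  have hl2' : 0.69 ≤ Real.log 2 := by
    have := Real.log_two_gt_d9
    linarith
  have a1 : Real.log N ≤ k * Real.log 2 := by
    have := Real.log_le_log hN0 (by exact_mod_cast hNk : (N : ℝ) ≤ (2 : ℝ) ^ k)
    rwa [Real.log_pow] at this
  have a2 : k * Real.log 2 ≤ Real.log 2 + Real.log N := by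
    have := Real.log_le_log (by positivity) (by exact_mod_cast hkN2 : (2 : ℝ) ^ k ≤ 2 * N)
    rwa [Real.log_pow, Real.log_mul (by norm_num) hN0.ne'] at this
  have hk0 : (0 : ℝ) < k := by exact_mod_cast (by omega : 0 < k)
  have b1 : Real.log N ≤ k := by nlinarith
  have b2 : (k : ℝ) ≤ 2 * Real.log N := by nlinarith
  have hkK : K₀ ≤ k := by exact_mod_cast (by linarith : (K₀ : ℝ) ≤ k)
  have hz1' : (k : ℝ) ^ B ≤ z := by
    refine le_trans ?_ hz1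
    calc (k : ℝ) ^ B ≤ (2 * Real.log N) ^ B := pow_le_pow_left₀ hk0.le b2 B
      _ = 2 ^ B * Real.log N ^ B := mul_pow _ _ _
      _ ≤ Real.log N * Real.log N ^ B := mul_le_mul_of_nonneg_right (by linarith) (by positivity)
      _ = _ := by rw [pow_succ]; ring
  have hz2' : (z : ℝ) ≤ (k : ℝ) ^ E := hz2.trans (pow_le_pow_left₀ hl0.le b1 E)
  have h3 := h2 k hkK z hz1' hz2' (fun _ => range 2) (fun i _ => ⟨subset_rfl, by rw [card_range]⟩)
    (2 ^ (2 * k)) le_rfl (by rw [one_mul]) (2 * Real.log N) (by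
      rw [abs_le]
      push_cast
      constructor
      · nlinarith
      · nlinarith) {x | x ∈ M ∧ x < N}
  rw [SD_two, card_range] at h3
  simp only [cnt_cut N (2 ^ k) hNk, rgh_cut z N (2 ^ k) hNk] at h3
  have hE : ((2 ^ k : ℕ) : ℝ) / (k : ℝ) ^ (K + 1) ≤ (N : ℝ) / Real.log N ^ K := by
    have e1 : ((2 ^ k : ℕ) : ℝ) ≤ 2 * N := by exact_mod_cast hkN2
    have e2 : Real.log N ^ K * 2 ≤ (k : ℝ) ^ (K + 1) := by
      rw [pow_succ]
      exact mul_le_mul (pow_le_pow_left₀ hl0.le b1 K) (by linarith) (by norm_num) (by positivity)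
    rw [div_le_div_iff₀ (by positivity) (by positivity)]
    calc ((2 ^ k : ℕ) : ℝ) * Real.log N ^ K ≤ 2 * N * Real.log N ^ K := mul_le_mul_of_nonneg_right e1 (by positivity)
      _ = N * (Real.log N ^ K * 2) := by ring
      _ ≤ _ := mul_le_mul_of_nonneg_left e2 hN0.le
  have hsub : (Fintype.piFinset (fun _ : Fin r => Icc 1 (N ^ 2))).filter (fun c =>
      ¬ |(cnt (range N) M c : ℝ) - rgh z (range N) M c / (Vz z * (2 * Real.log N)) ^ r| ≤
        ε * (rgh z (range N) M c / (Vz z * (2 * Real.log N)) ^ r) + (N : ℝ) / Real.log N ^ K) ⊆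
      (Fintype.piFinset (fun _ : Fin r => Icc 1 (2 ^ (2 * k)))).filter (fun c =>
      ¬ |(cnt (range N) M c : ℝ) - rgh z (range N) M c / (Vz z * (2 * Real.log N)) ^ r| ≤
        ε * (rgh z (range N) M c / (Vz z * (2 * Real.log N)) ^ r) + ((2 ^ k : ℕ) : ℝ) / (k : ℝ) ^ (K + 1)) := by
    intro c hc
    rw [mem_filter, Fintype.mem_piFinset] at hc ⊢
    refine ⟨fun j => ?_, fun h => hc.2 (h.trans (by linarith))⟩
    have := hc.1 j
    rw [mem_Icc] at this ⊢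
    refine ⟨this.1, this.2.trans ?_⟩
    calc N ^ 2 ≤ (2 ^ k) ^ 2 := Nat.pow_le_pow_left hNk 2
      _ = 2 ^ (2 * k) := by rw [← pow_mul, mul_comm]
  refine le_trans (show _ ≤ _ by exact_mod_cast card_le_card hsub) (h3.trans ?_)
  have e1 : (((2 ^ (2 * k) : ℕ) : ℝ)) ^ r ≤ 4 ^ r * ((N : ℝ) ^ 2) ^ r := by
    rw [← mul_pow]
    apply pow_le_pow_left₀ (by positivity)
    have e2 : 2 ^ (2 * k) ≤ 4 * N ^ 2 := by
      calc 2 ^ (2 * k) = (2 ^ k) ^ 2 := by rw [← pow_mul, mul_comm]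
        _ ≤ (2 * N) ^ 2 := Nat.pow_le_pow_left hkN2 2
        _ = _ := by ring
    exact_mod_cast e2
  have e3 : 4 ^ r * Real.log N ^ U ≤ (k : ℝ) ^ (U + 1) := by
    rw [pow_succ, mul_comm]
    exact mul_le_mul (pow_le_pow_left₀ hl0.le b1 U) (by linarith) (by positivity) (by positivity)
  rw [div_le_div_iff₀ (by positivity) (by positivity)]
  calc (((2 ^ (2 * k) : ℕ) : ℝ)) ^ r * Real.log N ^ U ≤ 4 ^ r * ((N : ℝ) ^ 2) ^ r * Real.log N ^ U :=
        mul_le_mul_of_nonneg_right e1 (by positivity)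
    _ = ((N : ℝ) ^ 2) ^ r * (4 ^ r * Real.log N ^ U) := by ring
    _ ≤ _ := mul_le_mul_of_nonneg_left e3 (by positivity)

end Pool.Agent.E8helper86.CF
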