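import Pool.Agent.E8helper86.CF.Gen

set_option autoImplicit false

/-! Uniformity in intervals and residue classes. -/

namespace Pool.Agent.E8helper86.CF
open Finset
open Pool.Agent.H373R2.T7 (Vz Vz_pos Vz_inv_small)

/-- the elements of `M` below `n` in a residue class -/
def cut (M : Set ℕ) (n q a : ℕ) : Set ℕ := {x | x ∈ M ∧ x < n ∧ x % q = a}

open Classical in
lemma cnt_mono {r : ℕ} (N : ℕ) (M : Set ℕ) (c : Fin r → ℕ) (m n d q a : ℕ) (h1 : m ≤ n) (h2 : n ≤ m + d) :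
    (cnt (range N) (cut M m q a) c : ℝ) ≤ cnt (range N) (cut M n q a) c ∧
    (cnt (range N) (cut M n q a) c : ℝ) ≤ cnt (range N) (cut M m q a) c + d := by
  unfold cnt
  constructor
  · have : (range N).filter (fun x => x ∈ cut M m q a ∧ ∀ j, (x ^ 2 + x + c j).Prime) ⊆
        (range N).filter (fun x => x ∈ cut M n q a ∧ ∀ j, (x ^ 2 + x + c j).Prime) := by
      intro x hx
      rw [mem_filter] at hx ⊢
      obtain ⟨g1, ⟨g2, g3, g4⟩, g5⟩ := hx
      exact ⟨g1, ⟨g2, by omega, g4⟩, g5⟩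
    exact_mod_cast card_le_card this
  · have : (range N).filter (fun x => x ∈ cut M n q a ∧ ∀ j, (x ^ 2 + x + c j).Prime) ⊆
        (range N).filter (fun x => x ∈ cut M m q a ∧ ∀ j, (x ^ 2 + x + c j).Prime) ∪ Ico m n := by
      intro x hx
      rw [mem_union, mem_filter, mem_Ico]
      rw [mem_filter] at hx
      obtain ⟨g1, ⟨g2, g3, g4⟩, g5⟩ := hx
      by_cases h : x < m
      · exact Or.inl ⟨g1, ⟨g2, h, g4⟩, g5⟩
      · exact Or.inr ⟨by omega, g3⟩
    have h3 := (card_le_card this).trans (card_union_le _ _)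
    rw [Nat.card_Ico] at h3
    have h4 : n - m ≤ d := by omega
    exact_mod_cast h3.trans (Nat.add_le_add_left h4 _)

open Classical in
lemma rgh_mono {r : ℕ} (z N : ℕ) (M : Set ℕ) (c : Fin r → ℕ) (m n d q a : ℕ) (h1 : m ≤ n) (h2 : n ≤ m + d) :
    (rgh z (range N) (cut M m q a) c : ℝ) ≤ rgh z (range N) (cut M n q a) c ∧
    (rgh z (range N) (cut M n q a) c : ℝ) ≤ rgh z (range N) (cut M m q a) c + d := by
  unfold rgh
  constructor
  · have : (range N).filter (fun x => x ∈ cut M m q a ∧ ∀ j, ∀ p : ℕ, p.Prime → p ≤ z → ¬ p ∣ x ^ 2 + x + c j) ⊆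
        (range N).filter (fun x => x ∈ cut M n q a ∧ ∀ j, ∀ p : ℕ, p.Prime → p ≤ z → ¬ p ∣ x ^ 2 + x + c j) := by
      intro x hx
      rw [mem_filter] at hx ⊢
      obtain ⟨g1, ⟨g2, g3, g4⟩, g5⟩ := hx
      exact ⟨g1, ⟨g2, by omega, g4⟩, g5⟩
    exact_mod_cast card_le_card this
  · have : (range N).filter (fun x => x ∈ cut M n q a ∧ ∀ j, ∀ p : ℕ, p.Prime → p ≤ z → ¬ p ∣ x ^ 2 + x + c j) ⊆
        (range N).filter (fun x => x ∈ cut M m q a ∧ ∀ j, ∀ p : ℕ, p.Prime → p ≤ z → ¬ p ∣ x ^ 2 + x + c j) ∪ Ico m n := by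
      intro x hx
      rw [mem_union, mem_filter, mem_Ico]
      rw [mem_filter] at hx
      obtain ⟨g1, ⟨g2, g3, g4⟩, g5⟩ := hx
      by_cases h : x < m
      · exact Or.inl ⟨g1, ⟨g2, h, g4⟩, g5⟩
      · exact Or.inr ⟨by omega, g3⟩
    have h3 := (card_le_card this).trans (card_union_le _ _)
    rw [Nat.card_Ico] at h3
    have h4 : n - m ≤ d := by omega
    exact_mod_cast h3.trans (Nat.add_le_add_left h4 _)

open Classical in
lemma cnt_zero {r : ℕ} (N : ℕ) (M : Set ℕ) (c : Fin r → ℕ) (n q a : ℕ) (h : q ≤ a) (hq : 1 ≤ q) :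
    cnt (range N) (cut M n q a) c = 0 := by
  unfold cnt
  rw [card_eq_zero, filter_eq_empty_iff]
  rintro x _ ⟨⟨_, _, g⟩, _⟩
  have := Nat.mod_lt x (by omega : 0 < q)
  omega

open Classical in
theorem uniform (r U K : ℕ) (ε : ℝ) (hε : 0 < ε) :
    ∃ B : ℕ, ∀ E : ℕ, ∃ N₀ : ℕ, ∀ N : ℕ, N₀ ≤ N → ∀ z : ℕ, Real.log N ^ B ≤ z → (z : ℝ) ≤ Real.log N ^ E → ∀ M : Set ℕ,
    (((Fintype.piFinset (fun _ : Fin r => Icc 1 (N ^ 2))).filter (fun c =>
      ¬ ∀ n : ℕ, n ≤ N → ∀ q a : ℕ, 1 ≤ q → (q : ℝ) ≤ Real.log N ^ K →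
        |(cnt (range N) (cut M n q a) c : ℝ) - rgh z (range N) (cut M n q a) c / (Vz z * (2 * Real.log N)) ^ r| ≤
        ε * (rgh z (range N) (cut M n q a) c / (Vz z * (2 * Real.log N)) ^ r) + (N : ℝ) / Real.log N ^ K)).card : ℝ) ≤
      ((N : ℝ) ^ 2) ^ r / Real.log N ^ U := by
  obtain ⟨B, h1⟩ := general r (U + (3 * K + 1)) (K + 1) ε hε
  refine ⟨B, fun E => ?_⟩
  obtain ⟨N1, h2⟩ := h1 E
  obtain ⟨N2, h3⟩ := Vz_inv_small E
  have hlog : Filter.Tendsto (fun N : ℕ => Real.log (N : ℝ)) Filter.atTop Filter.atTop :=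
    Real.tendsto_log_atTop.comp tendsto_natCast_atTop_atTop
  obtain ⟨N3, hN3⟩ := Filter.eventually_atTop.1 (hlog.eventually_ge_atTop (30 : ℝ))
  have hlo : ∀ᶠ N : ℕ in Filter.atTop, 10 * Real.log N ^ K ≤ N := by
    have g1 := ((Real.isLittleO_pow_log_id_atTop (n := K)).comp_tendsto (tendsto_natCast_atTop_atTop (R := ℝ))).def
      (show (0 : ℝ) < 1 / 10 by norm_num)
    filter_upwards [g1, hlog.eventually_ge_atTop (0 : ℝ)] with N hN hN0
    simp only [Function.comp_apply, id, Real.norm_natCast] at hN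
    rw [Real.norm_eq_abs, abs_of_nonneg (by positivity)] at hN
    linarith
  obtain ⟨N4, hN4⟩ := Filter.eventually_atTop.1 hlo
  refine ⟨N1 + N2 + N3 + N4 + 2, fun N hN z hz1 hz2 M => ?_⟩
  have hl := hN3 N (by omega)
  have hbig := hN4 N (by omega)
  obtain ⟨l, hll⟩ : ∃ l, l = Real.log (N : ℝ) := ⟨_, rfl⟩
  rw [← hll] at hl hbig
  have hl0 : 0 < l := by linarith
  have hl1 : 1 ≤ l := by linarith
  have hlK : 1 ≤ l ^ K := one_le_pow₀ hl1
  have hN0 : (0 : ℝ) < N := by exact_mod_cast (by omega : 0 < N)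
  have hz : 1 ≤ z := by
    have : (1 : ℝ) ≤ z := le_trans (one_le_pow₀ (by rw [← hll]; exact hl1)) hz1
    exact_mod_cast this
  have hV := Vz_pos z
  have hVl : 1 ≤ (Vz z * (2 * l)) ^ r := by
    apply one_le_pow₀
    have g := h3 N (by omega) z hz hz2
    rw [← hll, inv_le_iff_one_le_mul₀ hV] at g
    nlinarith
  obtain ⟨P, hP⟩ : ∃ P, P = (Vz z * (2 * l)) ^ r := ⟨_, rfl⟩
  rw [← hll]
  rw [← hP] at hVl ⊢
  -- the grid
  obtain ⟨T, hT⟩ : ∃ T, T = ⌈4 * l ^ K⌉₊ := ⟨_, rfl⟩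
  have hT1 : 4 * l ^ K ≤ T := by rw [hT]; exact Nat.le_ceil _
  have hT2 : (T : ℝ) ≤ 5 * l ^ K := by
    have := (Nat.ceil_lt_add_one (by positivity : 0 ≤ 4 * l ^ K)).le
    rw [← hT] at this
    linarith
  have hT0 : 0 < T := by
    have : (0 : ℝ) < T := by linarith
    exact_mod_cast this
  have hT0' : (0 : ℝ) < T := by exact_mod_cast hT0
  have h2T : 2 * T ≤ N := by
    have : (2 : ℝ) * T ≤ N := by linarith
    exact_mod_cast this
  obtain ⟨d, hd⟩ : ∃ d, d = N / T := ⟨_, rfl⟩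
  have hd1 : 1 ≤ d := by
    rw [hd]
    exact (Nat.le_div_iff_mul_le hT0).2 (by omega)
  have hdT : d * T ≤ N := by rw [hd]; exact Nat.div_mul_le_self N T
  have hdT2 : N < (d + 1) * T := by
    have := Nat.div_add_mod N T
    have h' := Nat.mod_lt N hT0
    rw [← hd] at this
    nlinarith
  have hdl : (d : ℝ) ≤ N / l ^ K * (1 / 4) := by
    have g1 : (d : ℝ) * T ≤ N := by exact_mod_cast hdT
    have g2 : (d : ℝ) * (4 * l ^ K) ≤ N := le_trans (mul_le_mul_of_nonneg_left hT1 (Nat.cast_nonneg _)) g1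
    rw [div_mul_eq_mul_div, le_div_iff₀ (by positivity)]
    linarith
  have hNd : N / d ≤ 2 * T := by
    apply Nat.div_le_of_le_mul
    nlinarith
  obtain ⟨Q, hQ⟩ : ∃ Q, Q = ⌊l ^ K⌋₊ := ⟨_, rfl⟩
  have hQ1 : (Q : ℝ) ≤ l ^ K := by rw [hQ]; exact Nat.floor_le (by positivity)
  -- the exceptional sets of the grid
  obtain ⟨A, hA⟩ : ∃ A : ℕ × ℕ × ℕ → Finset (Fin r → ℕ), ∀ t, A t = (Fintype.piFinset (fun _ : Fin r => Icc 1 (N ^ 2))).filter (fun c =>
      ¬ |(cnt (range N) (cut M (t.1 * d) t.2.1 t.2.2) c : ℝ) - rgh z (range N) (cut M (t.1 * d) t.2.1 t.2.2) c / P| ≤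
        ε * (rgh z (range N) (cut M (t.1 * d) t.2.1 t.2.2) c / P) + (N : ℝ) / l ^ (K + 1)) := ⟨_, fun _ => rfl⟩
  have hAc : ∀ t, ((A t).card : ℝ) ≤ ((N : ℝ) ^ 2) ^ r / l ^ (U + (3 * K + 1)) := by
    intro t
    rw [hA, hP, hll]
    exact h2 N (by omega) z hz1 hz2 (cut M (t.1 * d) t.2.1 t.2.2)
  obtain ⟨I, hI⟩ : ∃ I : Finset (ℕ × ℕ × ℕ), I = range (2 * T + 1) ×ˢ (Icc 1 Q ×ˢ range Q) := ⟨_, rfl⟩
  have hIc : (I.card : ℝ) ≤ l ^ (3 * K + 1) := by
    rw [hI, card_product, card_product, card_range, card_range, Nat.card_Icc, Nat.add_sub_cancel]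
    push_cast
    have g1 : (2 * (T : ℝ) + 1) ≤ 11 * l ^ K := by linarith
    have g2 : (Q : ℝ) * Q ≤ l ^ K * l ^ K := mul_le_mul hQ1 hQ1 (Nat.cast_nonneg _) (by positivity)
    calc (2 * (T : ℝ) + 1) * (Q * Q) ≤ 11 * l ^ K * (l ^ K * l ^ K) := mul_le_mul g1 g2 (by positivity) (by positivity)
      _ = 11 * l ^ (3 * K) := by ring
      _ ≤ l * l ^ (3 * K) := mul_le_mul_of_nonneg_right (by linarith) (by positivity)
      _ = _ := by rw [pow_succ]; ring
  have hsub : (Fintype.piFinset (fun _ : Fin r => Icc 1 (N ^ 2))).filter (fun c =>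
      ¬ ∀ n : ℕ, n ≤ N → ∀ q a : ℕ, 1 ≤ q → (q : ℝ) ≤ l ^ K →
        |(cnt (range N) (cut M n q a) c : ℝ) - rgh z (range N) (cut M n q a) c / P| ≤
        ε * (rgh z (range N) (cut M n q a) c / P) + (N : ℝ) / l ^ K) ⊆ I.biUnion A := by
    intro c hc
    rw [mem_filter] at hc
    obtain ⟨hc1, hc2⟩ := hc
    rw [mem_biUnion]
    by_contra hcon
    push Not at hcon
    apply hc2
    intro n hn q a hq hqK
    have hP0 : 0 < P := by linarith
    by_cases haq : q ≤ a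
    · rw [cnt_zero N M c n q a haq hq]
      have : rgh z (range N) (cut M n q a) c = 0 := by
        unfold rgh
        rw [card_eq_zero, filter_eq_empty_iff]
        rintro x _ ⟨⟨_, _, g⟩, _⟩
        have := Nat.mod_lt x (by omega : 0 < q)
        omega
      rw [this]
      simp only [Nat.cast_zero, zero_div, sub_zero, abs_zero, mul_zero, zero_add]
      positivity
    · have hqQ : q ≤ Q := by
        rw [hQ]
        exact Nat.le_floor hqK
      obtain ⟨i, hi⟩ : ∃ i, i = n / d := ⟨_, rfl⟩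
      have hi1 : i * d ≤ n := by rw [hi]; exact Nat.div_mul_le_self n d
      have hi2 : n ≤ i * d + d := by
        have g := Nat.div_add_mod n d
        have g' := Nat.mod_lt n (by omega : 0 < d)
        rw [← hi] at g
        nlinarith
      have hi3 : i ≤ 2 * T := by
        rw [hi]
        exact (Nat.div_le_div_right hn).trans hNd
      have hmem : (i, q, a) ∈ I := by
        rw [hI]
        simp only [mem_product, mem_range, mem_Icc]
        exact ⟨by omega, ⟨hq, hqQ⟩, by omega⟩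
      have g := hcon _ hmem
      rw [hA, mem_filter] at g
      push Not at g
      have g1 := g hc1
      simp only at g1
      obtain ⟨m1, m2⟩ := cnt_mono N M c (i * d) n d q a hi1 hi2
      obtain ⟨m3, m4⟩ := rgh_mono z N M c (i * d) n d q a hi1 hi2
      obtain ⟨x0, hx0⟩ : ∃ x : ℝ, x = cnt (range N) (cut M (i * d) q a) c := ⟨_, rfl⟩
      obtain ⟨x1, hx1⟩ : ∃ x : ℝ, x = cnt (range N) (cut M n q a) c := ⟨_, rfl⟩
      obtain ⟨y0, hy0⟩ : ∃ x : ℝ, x = rgh z (range N) (cut M (i * d) q a) c := ⟨_, rfl⟩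
      obtain ⟨y1, hy1⟩ : ∃ x : ℝ, x = rgh z (range N) (cut M n q a) c := ⟨_, rfl⟩
      rw [← hx0, ← hx1] at m1 m2
      rw [← hy0, ← hy1] at m3 m4
      rw [← hx0, ← hy0] at g1
      rw [← hx1, ← hy1]
      have e1 : y0 / P ≤ y1 / P := div_le_div_of_nonneg_right m3 hP0.le
      have e2 : y1 / P ≤ y0 / P + d := by
        have : y1 / P ≤ (y0 + d) / P := div_le_div_of_nonneg_right m4 hP0.le
        rw [add_div] at this
        have e3 : (d : ℝ) / P ≤ d := div_le_self (Nat.cast_nonneg _) hVl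
        linarith
      have e4 : (N : ℝ) / l ^ (K + 1) ≤ N / l ^ K * (1 / 30) := by
        rw [pow_succ, ← div_div, div_eq_mul_one_div (N / l ^ K : ℝ) l]
        apply mul_le_mul_of_nonneg_left _ (by positivity)
        exact one_div_le_one_div_of_le (by norm_num) hl
      have e5 : 0 ≤ (N : ℝ) / l ^ K := by positivity
      have e6 : ε * (y0 / P) ≤ ε * (y1 / P) := mul_le_mul_of_nonneg_left e1 hε.le
      rw [abs_le] at g1 ⊢
      constructor
      · linarith [g1.1]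
      · linarith [g1.2]
  have hX0 : (0 : ℝ) ≤ ((N : ℝ) ^ 2) ^ r := by positivity
  calc (((Fintype.piFinset (fun _ : Fin r => Icc 1 (N ^ 2))).filter (fun c =>
      ¬ ∀ n : ℕ, n ≤ N → ∀ q a : ℕ, 1 ≤ q → (q : ℝ) ≤ l ^ K →
        |(cnt (range N) (cut M n q a) c : ℝ) - rgh z (range N) (cut M n q a) c / P| ≤
        ε * (rgh z (range N) (cut M n q a) c / P) + (N : ℝ) / l ^ K)).card : ℝ) ≤ ((I.biUnion A).card : ℝ) := by
        exact_mod_cast card_le_card hsub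
    _ ≤ ∑ t ∈ I, ((A t).card : ℝ) := by exact_mod_cast card_biUnion_le
    _ ≤ ∑ _t ∈ I, ((N : ℝ) ^ 2) ^ r / l ^ (U + (3 * K + 1)) := sum_le_sum fun t _ => hAc t
    _ = I.card * (((N : ℝ) ^ 2) ^ r / l ^ (U + (3 * K + 1))) := by rw [sum_const, nsmul_eq_mul]
    _ ≤ l ^ (3 * K + 1) * (((N : ℝ) ^ 2) ^ r / l ^ (U + (3 * K + 1))) := mul_le_mul_of_nonneg_right hIc (by positivity)
    _ = _ := by
      rw [pow_add l U]
      field_simp

end Pool.Agent.E8helper86.CF
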